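import Pool.Agent.H93.TN.TargetsA
import Pool.Agent.H31.BR.KS

/-!
# Module BKN of the board tn_modules (MP_ee74d2_an): the kernel of `(C0 - Aw C0) PL`
-/

set_option autoImplicit false

namespace Pool.Agent.H18.TN.BKN

open MeasureTheory Set FourierTransform
open Pool.Agent.H93.TN Pool.Agent.H83.LS Pool.Agent.H93.AR Pool.Agent.H54.LS Pool.Agent.H31.BR
open scoped ENNReal NNReal

theorem chis_abs (s : ℝ) : |chis s| ≤ 1 := by
  unfold chis
  have h1 := eta_nonneg (s / 2)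
  have h2 := eta_le_one (s / 2)
  have h3 := eta_nonneg (4 * s)
  have h4 := eta_le_one (4 * s)
  rw [abs_le]
  constructor <;> linarith

theorem chis_supp {s : ℝ} (h : chis s ≠ 0) : 1 / 4 ≤ s ∧ s ≤ 4 := by
  unfold chis at h
  constructor
  · by_contra hc
    push Not at hc
    apply h
    rw [eta_one (by linarith), eta_one (by linarith), sub_self]
  · by_contra hc
    push Not at hc
    apply h
    rw [eta_zero (by linarith), eta_zero (by linarith), sub_self]

theorem chis_cont : Continuous chis := by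
  unfold chis
  exact (eta_cont.comp (by fun_prop)).sub (eta_cont.comp (by fun_prop))

theorem aw_abs {n : ℕ} (φ : ℝ) (w ω : EE n) : |1 - aw φ w ω| ≤ 1 := by
  unfold aw
  have h1 := eta_nonneg ((‖ω - w‖ / (2 * φ)) ^ 2)
  have h2 := eta_le_one ((‖ω - w‖ / (2 * φ)) ^ 2)
  have h3 := eta_nonneg ((‖ω + w‖ / (2 * φ)) ^ 2)
  have h4 := eta_le_one ((‖ω + w‖ / (2 * φ)) ^ 2)
  rw [abs_le]
  constructor <;> linarith

theorem aw_cont {n : ℕ} (φ : ℝ) (w : EE n) : Continuous fun ω : EE n => aw φ w ω := by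
  unfold aw
  exact (eta_cont.comp (by fun_prop)).add (eta_cont.comp (by fun_prop))

theorem sE_meas {n : ℕ} (Lam φ : ℝ) (w : EE n) : Measurable (sE n Lam φ w) := by
  unfold sE
  apply Complex.measurable_ofReal.comp
  apply Measurable.mul
  · exact chis_cont.measurable.comp (measurable_norm.div_const _)
  · apply measurable_const.sub
    exact (aw_cont φ w).measurable.comp (measurable_norm.inv.smul measurable_id)

theorem sE_norm {n : ℕ} (Lam φ : ℝ) (w ξ : EE n) : ‖sE n Lam φ w ξ‖ ≤ 1 := by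
  unfold sE
  rw [Complex.norm_real, Real.norm_eq_abs, abs_mul]
  have h1 := chis_abs (‖ξ‖ / Lam)
  have h2 := aw_abs φ w (‖ξ‖⁻¹ • ξ)
  nlinarith [abs_nonneg (chis (‖ξ‖ / Lam)), abs_nonneg (1 - aw φ w (‖ξ‖⁻¹ • ξ))]

theorem sE_int {n : ℕ} {Lam : ℝ} (hLam : 0 < Lam) (φ : ℝ) (w : EE n) :
    Integrable (sE n Lam φ w) := by
  have h5 : Integrable ((Metric.closedBall (0 : EE n) (4 * Lam)).indicator fun _ => (1 : ℝ)) := by
    rw [integrable_indicator_iff measurableSet_closedBall]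
    exact integrableOn_const measure_closedBall_lt_top.ne (by finiteness)
  refine h5.mono' (sE_meas Lam φ w).aestronglyMeasurable (ae_of_all _ fun ξ => ?_)
  by_cases h6 : sE n Lam φ w ξ = 0
  · rw [h6, norm_zero]
    exact indicator_nonneg (fun _ _ => zero_le_one) _
  · rw [indicator_of_mem]
    · exact sE_norm Lam φ w ξ
    · rw [mem_closedBall_zero_iff]
      by_contra hc
      push Not at hc
      apply h6
      unfold sE
      have h7 : chis (‖ξ‖ / Lam) = 0 := by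
        by_contra h8
        have h9 := (chis_supp h8).2
        rw [div_le_iff₀ hLam] at h9
        linarith
      rw [h7]
      simp

/-- polar coordinates -/
theorem mk_polar {n : ℕ} (hn : 1 ≤ n) {s : EE n → ℂ} (hs : Integrable s) (hm : Measurable s)
    (z : EE n) : MK s z = ∫ τ : Ioi (0 : ℝ), ∫ ω : Sp n,
      e ((τ : ℝ) * inner ℝ z (ω : EE n)) * s ((τ : ℝ) • (ω : EE n)) ∂(sg n) ∂(nu n) := by
  have hec : Continuous fun ξ : EE n => e (inner ℝ z ξ) :=
    continuous_e.comp (continuous_const.inner continuous_id)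
  have hHm : Measurable fun ξ : EE n => e (inner ℝ z ξ) * s ξ := hec.measurable.mul hm
  have hHi : Integrable fun ξ : EE n => e (inner ℝ z ξ) * s ξ := by
    refine hs.norm.mono' hHm.aestronglyMeasurable (ae_of_all _ fun ξ => ?_)
    rw [norm_mul, norm_e, one_mul]
  unfold MK
  rw [← integral_mp (mp_polar n hn) hHm.aestronglyMeasurable]
  have hHi' : Integrable (fun q : Sp n × Ioi (0 : ℝ) =>
      e (inner ℝ z ((q.2 : ℝ) • (q.1 : EE n))) * s ((q.2 : ℝ) • (q.1 : EE n)))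
      ((sg n).prod (nu n)) := (mp_polar n hn).integrable_comp_of_integrable hHi
  rw [integral_prod_symm _ hHi']
  refine integral_congr_ae (ae_of_all _ fun τ => ?_)
  simp only
  refine integral_congr_ae (ae_of_all _ fun ω => ?_)
  simp only
  rw [inner_smul_right]

theorem sE_polar {n : ℕ} (Lam φ : ℝ) (w : EE n) (τ : Ioi (0 : ℝ)) (ω : Sp n) :
    sE n Lam φ w ((τ : ℝ) • (ω : EE n)) =
      ((chis ((τ : ℝ) / Lam) * (1 - aw φ w (ω : EE n)) : ℝ) : ℂ) := by
  have hτ : 0 < (τ : ℝ) := τ.2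
  have h7 : ‖(τ : ℝ) • (ω : EE n)‖ = τ := by
    rw [norm_smul, norm_sp, mul_one, Real.norm_of_nonneg hτ.le]
  unfold sE
  rw [h7, smul_smul, inv_mul_cancel₀ hτ.ne', one_smul]

theorem nu_int {n : ℕ} (hn : 1 ≤ n) {a : ℝ} (ha : 0 < a) (b : ℝ) (hb : 0 ≤ b) :
    Integrable ((Iio (⟨a, ha⟩ : Ioi (0 : ℝ))).indicator fun _ => b) (nu n) ∧
    ∫ τ, (Iio (⟨a, ha⟩ : Ioi (0 : ℝ))).indicator (fun _ => b) τ ∂(nu n) ≤ b * a ^ n := by
  have h1 : nu n (Iio (⟨a, ha⟩ : Ioi (0 : ℝ))) = ENNReal.ofReal (a ^ n / n) := by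
    have h2 := Measure.volumeIoiPow_apply_Iio (n - 1) (⟨a, ha⟩ : Ioi (0 : ℝ))
    rw [Nat.sub_add_cancel hn] at h2
    rw [h2]
    congr 2
    have h3 : ((n - 1 : ℕ) : ℝ) + 1 = n := by
      rw [Nat.cast_sub hn]
      push_cast
      ring
    rw [h3]
  constructor
  · rw [integrable_indicator_iff measurableSet_Iio]
    exact integrableOn_const (by rw [h1]; exact ENNReal.ofReal_ne_top) (by finiteness)
  · rw [integral_indicator_const _ measurableSet_Iio, smul_eq_mul]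
    unfold Measure.real
    rw [h1, ENNReal.toReal_ofReal (by positivity), mul_comm]
    apply mul_le_mul_of_nonneg_left _ hb
    have h4 : (1 : ℝ) ≤ n := by exact_mod_cast hn
    rw [div_le_iff₀ (by linarith)]
    nlinarith [pow_pos ha n]

theorem e_add (a b : ℝ) : e (a + b) = e a * e b := by
  unfold e
  rw [← Complex.exp_add]
  congr 1
  push_cast
  ring

/-- the numerical part -/
theorem numer (N : ℕ) {Lam R X φ L : ℝ} (hX : 0 ≤ X) (hφ : 0 < φ) (hL : 1 ≤ L)
    (hR : X / 4 ≤ R) (_hLam : Lam = Lam) :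
    ((1 + min (R * φ ^ 2) (min (R * φ / L) (Real.sqrt R * φ))) ^ N)⁻¹ ≤
      4 ^ N * ((1 + min (X * φ ^ 2) (min (X * φ / L) (Real.sqrt X * φ))) ^ N)⁻¹ := by
  have hR0 : 0 ≤ R := by linarith
  set a := min (R * φ ^ 2) (min (R * φ / L) (Real.sqrt R * φ)) with ha
  set b := min (X * φ ^ 2) (min (X * φ / L) (Real.sqrt X * φ)) with hb
  have hb0 : 0 ≤ b := le_min (by positivity) (le_min (by positivity) (by positivity))
  have hab : b / 4 ≤ a := by
    refine le_min ?_ (le_min ?_ ?_)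
    · have h1 : b ≤ X * φ ^ 2 := min_le_left _ _
      have h2 : X / 4 * φ ^ 2 ≤ R * φ ^ 2 := by gcongr
      linarith
    · have h1 : b ≤ X * φ / L := (min_le_right _ _).trans (min_le_left _ _)
      have h2 : X / 4 * φ / L ≤ R * φ / L := by gcongr
      have h3 : X / 4 * φ / L = X * φ / L / 4 := by ring
      linarith
    · have h1 : b ≤ Real.sqrt X * φ := (min_le_right _ _).trans (min_le_right _ _)
      have h2 : Real.sqrt X / 2 ≤ Real.sqrt R := by
        have h3 : Real.sqrt X / 2 = Real.sqrt (X / 4) := by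
          rw [Real.sqrt_div hX]
          have : Real.sqrt 4 = 2 := by
            rw [show (4 : ℝ) = 2 ^ 2 by norm_num]
            exact Real.sqrt_sq (by norm_num)
          rw [this]
        rw [h3]
        exact Real.sqrt_le_sqrt hR
      have h4 : Real.sqrt X / 2 * φ ≤ Real.sqrt R * φ := by gcongr
      have h5 : 0 ≤ Real.sqrt X * φ := by positivity
      linarith
  have ha0 : 0 ≤ a := by linarith
  rw [← inv_pow, ← inv_pow, ← mul_pow]
  apply pow_le_pow_left₀ (by positivity)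
  rw [← div_eq_mul_inv, le_div_iff₀ (by positivity), inv_mul_le_iff₀ (by positivity)]
  linarith

theorem zk_cont {n : ℕ} {L : ℝ}
    (h : ContinuousOn (fun q : EE n × EE n => zk n L q.1 q.2) {q | q.2 ≠ 0}) {X : Type}
    [TopologicalSpace X] (f g : X → EE n) (hf : Continuous f) (hg : Continuous g)
    (hg0 : ∀ x, g x ≠ 0) : Continuous fun x => ((zk n L (f x) (g x) : ℝ) : ℂ) := by
  have h2 : Continuous ((fun q : EE n × EE n => zk n L q.1 q.2) ∘ fun x => (f x, g x)) :=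
    h.comp_continuous (hf.prodMk hg) (fun x => hg0 x)
  exact Complex.continuous_ofReal.comp h2

attribute [local irreducible] zk

theorem pf_bkn (hJT : T_JT) (hZC : T_ZC) (hZB : T_ZB) : T_BKN := by
  intro n N hn
  have hn1 : 1 ≤ n := by omega
  obtain ⟨CJ, hCJ0, hCJ⟩ := hJT n N hn
  obtain ⟨CZ, hCZ⟩ := hZB n hn1
  obtain ⟨σ, hσ⟩ : ∃ σ : ℝ, σ = (sg n).real univ := ⟨_, rfl⟩
  have hσ0 : 0 ≤ σ := by rw [hσ]; positivity
  refine ⟨CJ * σ * 4 ^ N * 5 ^ n, by positivity, ?_⟩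
  intro Lam L φ w x y hLam hL hφ hφ' hw hx hy hxw
  obtain ⟨-, hZcont, hZ0, hZb, hZsym, -, hZinv⟩ := hCZ L hL
  have hy0 : 0 < ‖y‖ := norm_pos_iff.2 hy
  have hx0 : 0 < ‖x‖ := by
    by_contra hc
    have h1 : ‖x‖ = 0 := le_antisymm (not_lt.1 hc) (norm_nonneg _)
    rw [h1, mul_zero] at hx
    linarith
  obtain ⟨ρ, hρ⟩ : ∃ ρ : ℝ, ρ = ‖y‖ := ⟨_, rfl⟩
  obtain ⟨vy, hvy⟩ : ∃ vy : EE n, vy = ‖y‖⁻¹ • y := ⟨_, rfl⟩
  have hvy1 : ‖vy‖ = 1 := by
    rw [hvy, norm_smul, norm_inv, norm_norm, inv_mul_cancel₀ hy0.ne']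
  have hvy0 : vy ≠ 0 := by
    intro h
    rw [h, norm_zero] at hvy1
    exact zero_ne_one hvy1
  rw [← hvy, ← hρ]
  obtain ⟨B, hB⟩ : ∃ B : ℝ, B = CZ * L ^ (n - 1) := ⟨_, rfl⟩
  have hB0 : 0 ≤ B := by
    rw [hB]
    exact (hZ0 vy vy).trans (hZb vy vy hvy1 hvy1)
  -- continuity of the zonal kernel on the sphere
  have hZc1 : Continuous fun v : Sp n => ((zk n L (v : EE n) vy : ℝ) : ℂ) :=
    zk_cont hZcont (fun v : Sp n => (v : EE n)) (fun _ => vy) continuous_subtype_val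
      continuous_const (fun _ => hvy0)
  have hZc2 : Continuous fun q : Sp n × Sp n =>
      ((zk n L (q.2 : EE n) (q.1 : EE n) : ℝ) : ℂ) := by
    refine zk_cont hZcont (fun q : Sp n × Sp n => (q.2 : EE n)) (fun q => (q.1 : EE n))
      (continuous_subtype_val.comp continuous_snd) (continuous_subtype_val.comp continuous_fst) ?_
    intro q h
    have := norm_sp q.1
    rw [h, norm_zero] at this
    exact zero_ne_one this
  have hZn : ∀ u v : EE n, ‖u‖ = 1 → ‖v‖ = 1 → ‖((zk n L u v : ℝ) : ℂ)‖ ≤ B := by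
    intro u v hu hv
    rw [Complex.norm_real, Real.norm_of_nonneg (hZ0 u v), hB]
    exact hZb u v hu hv
  have hawc : Continuous fun ω : Sp n => ((1 - aw φ w (ω : EE n) : ℝ) : ℂ) := by
    apply Complex.continuous_ofReal.comp
    exact continuous_const.sub ((aw_cont φ w).comp continuous_subtype_val)
  have hawn : ∀ ω : EE n, ‖((1 - aw φ w ω : ℝ) : ℂ)‖ ≤ 1 := by
    intro ω
    rw [Complex.norm_real, Real.norm_eq_abs]
    exact aw_abs φ w ω
  have hchn : ∀ s : ℝ, ‖((chis s : ℝ) : ℂ)‖ ≤ 1 := by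
    intro s
    rw [Complex.norm_real, Real.norm_eq_abs]
    exact chis_abs s
  -- the integrand
  let G : ℝ → Sp n → Sp n → ℂ := fun τ v ω =>
    e (τ * inner ℝ (x - ρ • (v : EE n)) (ω : EE n)) *
      (((chis (τ / Lam) : ℝ) : ℂ) * ((1 - aw φ w (ω : EE n) : ℝ) : ℂ)) *
      ((zk n L (v : EE n) vy : ℝ) : ℂ)
  have hGc : Continuous fun q : (Sp n × Ioi (0 : ℝ)) × Sp n => G (q.1.2 : ℝ) q.1.1 q.2 := by
    have h1 : Continuous fun q : (Sp n × Ioi (0 : ℝ)) × Sp n =>
        e ((q.1.2 : ℝ) * inner ℝ (x - ρ • (q.1.1 : EE n)) (q.2 : EE n)) :=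
      continuous_e.comp (by fun_prop)
    have h2 : Continuous fun q : (Sp n × Ioi (0 : ℝ)) × Sp n =>
        ((chis ((q.1.2 : ℝ) / Lam) : ℝ) : ℂ) :=
      Complex.continuous_ofReal.comp (chis_cont.comp (by fun_prop))
    have h3 : Continuous fun q : (Sp n × Ioi (0 : ℝ)) × Sp n =>
        ((1 - aw φ w (q.2 : EE n) : ℝ) : ℂ) := hawc.comp continuous_snd
    have h4 : Continuous fun q : (Sp n × Ioi (0 : ℝ)) × Sp n =>
        ((zk n L (q.1.1 : EE n) vy : ℝ) : ℂ) := hZc1.comp (continuous_fst.comp continuous_fst)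
    exact (h1.mul (h2.mul h3)).mul h4
  have hGb : ∀ τ v ω, ‖G τ v ω‖ ≤ B := by
    intro τ v ω
    simp only [G]
    rw [norm_mul, norm_mul, norm_e, one_mul, norm_mul]
    have h1 := hchn (τ / Lam)
    have h2 := hawn (ω : EE n)
    have h3 := hZn (v : EE n) vy (norm_sp v) hvy1
    calc ‖((chis (τ / Lam) : ℝ) : ℂ)‖ * ‖((1 - aw φ w (ω : EE n) : ℝ) : ℂ)‖ *
          ‖((zk n L (v : EE n) vy : ℝ) : ℂ)‖ ≤ 1 * 1 * B := by gcongr
      _ = B := by ring
  have hGz : ∀ (τ : ℝ) v ω, 5 * Lam ≤ τ → G τ v ω = 0 := by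
    intro τ v ω h
    simp only [G]
    have h7 : chis (τ / Lam) = 0 := by
      by_contra h8
      have h9 := (chis_supp h8).2
      rw [div_le_iff₀ hLam] at h9
      linarith
    rw [h7]
    simp
  have h5L : 0 < 5 * Lam := by positivity
  -- first step
  have e1 : ∫ v : Sp n, MK (sE n Lam φ w) (x - ρ • (v : EE n)) *
      ((zk n L (v : EE n) vy : ℝ) : ℂ) ∂(sg n) =
      ∫ v : Sp n, ∫ τ : Ioi (0 : ℝ), ∫ ω : Sp n, G (τ : ℝ) v ω ∂(sg n) ∂(nu n) ∂(sg n) := by
    refine integral_congr_ae (ae_of_all _ fun v => ?_)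
    simp only
    rw [mk_polar hn1 (sE_int hLam φ w) (sE_meas Lam φ w), ← integral_mul_const]
    refine integral_congr_ae (ae_of_all _ fun τ => ?_)
    simp only
    rw [← integral_mul_const]
    refine integral_congr_ae (ae_of_all _ fun ω => ?_)
    simp only [G]
    rw [sE_polar]
    push_cast
    ring
  have e2 : ∫ v : Sp n, ∫ τ : Ioi (0 : ℝ), ∫ ω : Sp n, G (τ : ℝ) v ω ∂(sg n) ∂(nu n) ∂(sg n) =
      ∫ τ : Ioi (0 : ℝ), ∫ v : Sp n, ∫ ω : Sp n, G (τ : ℝ) v ω ∂(sg n) ∂(sg n) ∂(nu n) := by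
    rw [integral_integral_swap]
    have h1 : StronglyMeasurable fun p : Sp n × Ioi (0 : ℝ) =>
        ∫ ω : Sp n, G (p.2 : ℝ) p.1 ω ∂(sg n) := hGc.stronglyMeasurable.integral_prod_right'
    have h3 := (integrable_const (μ := sg n) (1 : ℝ)).mul_prod
      (nu_int hn1 h5L (B * σ) (by positivity)).1
    refine h3.mono' h1.aestronglyMeasurable (ae_of_all _ fun p => ?_)
    simp only [Function.uncurry, one_mul]
    by_cases hp : p.2 ∈ Iio (⟨5 * Lam, h5L⟩ : Ioi (0 : ℝ))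
    · rw [indicator_of_mem hp, hσ]
      exact norm_integral_le_of_norm_le_const (ae_of_all _ fun ω => hGb _ _ _)
    · rw [indicator_of_notMem hp]
      have hp2 : 5 * Lam ≤ (p.2 : ℝ) := by
        have h4 : ¬ (p.2 < (⟨5 * Lam, h5L⟩ : Ioi (0 : ℝ))) := hp
        exact not_lt.1 h4
      have : ∀ ω : Sp n, G (p.2 : ℝ) p.1 ω = 0 := fun ω => hGz _ _ _ hp2
      simp [this]
  rw [e1, e2]
  obtain ⟨Z, hZ⟩ : ∃ Z : ℝ, Z = ((1 + min (Lam * ‖x‖ * φ ^ 2) (min (Lam * ‖x‖ * φ / L)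
    (Real.sqrt (Lam * ‖x‖) * φ))) ^ N)⁻¹ := ⟨_, rfl⟩
  rw [← hZ]
  have hX0 : 0 ≤ Lam * ‖x‖ := by positivity
  have hZ0' : 0 ≤ Z := by
    rw [hZ]
    have : 0 ≤ min (Lam * ‖x‖ * φ ^ 2) (min (Lam * ‖x‖ * φ / L)
        (Real.sqrt (Lam * ‖x‖) * φ)) :=
      le_min (by positivity) (le_min (by positivity) (by positivity))
    positivity
  have hLn : 0 ≤ L ^ (n - 1) := by positivity
  obtain ⟨b, hb⟩ : ∃ b : ℝ, b = CJ * L ^ (n - 1) * (4 ^ N * Z) * σ := ⟨_, rfl⟩
  have hb0 : 0 ≤ b := by rw [hb]; positivity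
  -- fixed `τ`
  have key : ∀ τ : Ioi (0 : ℝ), ‖∫ v : Sp n, ∫ ω : Sp n, G (τ : ℝ) v ω ∂(sg n) ∂(sg n)‖ ≤
      (Iio (⟨5 * Lam, h5L⟩ : Ioi (0 : ℝ))).indicator (fun _ => b) τ := by
    rintro ⟨τ, hτ⟩
    have hτ0 : 0 < τ := hτ
    simp only
    by_cases hch : chis (τ / Lam) = 0
    · have h1 : ∀ v ω, G τ v ω = 0 := by
        intro v ω
        simp only [G]
        rw [hch]
        simp
      simp only [h1, integral_zero, norm_zero]
      exact indicator_nonneg (fun _ _ => hb0) _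
    obtain ⟨hs1, hs2⟩ := chis_supp hch
    rw [le_div_iff₀ hLam] at hs1
    rw [div_le_iff₀ hLam] at hs2
    have hmem : (⟨τ, hτ⟩ : Ioi (0 : ℝ)) ∈ Iio (⟨5 * Lam, h5L⟩ : Ioi (0 : ℝ)) := by
      show (⟨τ, hτ⟩ : Ioi (0 : ℝ)) < ⟨5 * Lam, h5L⟩
      exact Subtype.mk_lt_mk.2 (by linarith)
    rw [indicator_of_mem hmem]
    -- the swapped kernel
    let G' : Sp n → Sp n → ℂ := fun v ω =>
      (((chis (τ / Lam) : ℝ) : ℂ) * e (-(τ * ρ * inner ℝ (v : EE n) vy))) *
      (e (τ * ‖x‖ * inner ℝ (‖x‖⁻¹ • x) (ω : EE n)) *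
        ((zk n L (ω : EE n) (v : EE n) * (1 - aw φ w (ω : EE n)) : ℝ) : ℂ))
    have f1 : ∫ v : Sp n, ∫ ω : Sp n, G τ v ω ∂(sg n) ∂(sg n) =
        ∫ ω : Sp n, ∫ v : Sp n, G τ v ω ∂(sg n) ∂(sg n) := by
      rw [integral_integral_swap]
      have h1 : Continuous fun q : Sp n × Sp n => G τ q.1 q.2 := by
        have h2 : Continuous fun q : Sp n × Sp n =>
            (((q.1, (⟨τ, hτ⟩ : Ioi (0 : ℝ))), q.2) : (Sp n × Ioi (0 : ℝ)) × Sp n) := by
          fun_prop
        exact hGc.comp h2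
      refine Integrable.of_bound h1.aestronglyMeasurable B (ae_of_all _ fun q => ?_)
      exact hGb _ _ _
    have f2 : ∫ ω : Sp n, ∫ v : Sp n, G τ v ω ∂(sg n) ∂(sg n) =
        ∫ ω : Sp n, ∫ v : Sp n, G' v ω ∂(sg n) ∂(sg n) := by
      refine integral_congr_ae (ae_of_all _ fun ω => ?_)
      simp only
      have hzc := hZC n (fun p q => e (-(τ * ρ * inner ℝ p q))) (fun p q => ((zk n L p q : ℝ) : ℂ))
        hn1 (fun Q u v => ⟨by simp only [Q.inner_map_map], by simp only [hZinv Q u v]⟩)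
        (fun u v hu hv => ⟨by simp only [real_inner_comm], by simp only [hZsym u v hu hv]⟩)
        (ω : EE n) vy (norm_sp ω) hvy1
      have h1 : ∀ v : Sp n, G τ v ω =
          (e (τ * inner ℝ x (ω : EE n)) * (((chis (τ / Lam) : ℝ) : ℂ) *
            ((1 - aw φ w (ω : EE n) : ℝ) : ℂ))) *
          (e (-(τ * ρ * inner ℝ (ω : EE n) (v : EE n))) * ((zk n L (v : EE n) vy : ℝ) : ℂ)) := by
        intro v
        simp only [G]
        have h2 : τ * inner ℝ (x - ρ • (v : EE n)) (ω : EE n) =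
            τ * inner ℝ x (ω : EE n) + -(τ * ρ * inner ℝ (ω : EE n) (v : EE n)) := by
          rw [inner_sub_left, inner_smul_left, real_inner_comm (v : EE n) (ω : EE n)]
          simp only [conj_trivial]
          ring
        rw [h2, e_add]
        ring
      have h3 : ∀ v : Sp n, G' v ω =
          (e (τ * inner ℝ x (ω : EE n)) * (((chis (τ / Lam) : ℝ) : ℂ) *
            ((1 - aw φ w (ω : EE n) : ℝ) : ℂ))) *
          (((zk n L (ω : EE n) (v : EE n) : ℝ) : ℂ) *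
            e (-(τ * ρ * inner ℝ (v : EE n) vy))) := by
        intro v
        simp only [G']
        have h2 : τ * ‖x‖ * inner ℝ (‖x‖⁻¹ • x) (ω : EE n) = τ * inner ℝ x (ω : EE n) := by
          rw [inner_smul_left]
          simp only [conj_trivial]
          field_simp
        rw [h2]
        push_cast
        ring
      simp only [h1, h3]
      rw [integral_const_mul, integral_const_mul]
      congr 1
    have f3 : ∫ ω : Sp n, ∫ v : Sp n, G' v ω ∂(sg n) ∂(sg n) =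
        ∫ v : Sp n, ∫ ω : Sp n, G' v ω ∂(sg n) ∂(sg n) := by
      rw [integral_integral_swap]
      have h1 : Continuous fun q : Sp n × Sp n => G' q.2 q.1 := by
        have h2 : Continuous fun q : Sp n × Sp n =>
            ((chis (τ / Lam) : ℝ) : ℂ) * e (-(τ * ρ * inner ℝ (q.2 : EE n) vy)) :=
          continuous_const.mul (continuous_e.comp (by fun_prop))
        have h3 : Continuous fun q : Sp n × Sp n =>
            e (τ * ‖x‖ * inner ℝ (‖x‖⁻¹ • x) (q.1 : EE n)) := continuous_e.comp (by fun_prop)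
        have h4 : Continuous fun q : Sp n × Sp n =>
            ((zk n L (q.1 : EE n) (q.2 : EE n) * (1 - aw φ w (q.1 : EE n)) : ℝ) : ℂ) := by
          have h5 : Continuous fun q : Sp n × Sp n =>
              ((zk n L (q.1 : EE n) (q.2 : EE n) : ℝ) : ℂ) := hZc2.comp continuous_swap
          have h6 : Continuous fun q : Sp n × Sp n =>
              ((1 - aw φ w (q.1 : EE n) : ℝ) : ℂ) := hawc.comp continuous_fst
          have h7 : Continuous fun q : Sp n × Sp n =>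
              ((zk n L (q.1 : EE n) (q.2 : EE n) : ℝ) : ℂ) *
                ((1 - aw φ w (q.1 : EE n) : ℝ) : ℂ) := h5.mul h6
          refine h7.congr fun q => ?_
          rw [← Complex.ofReal_mul]
        exact h2.mul (h3.mul h4)
      refine Integrable.of_bound h1.aestronglyMeasurable B (ae_of_all _ fun q => ?_)
      simp only [Function.uncurry, G']
      rw [norm_mul, norm_mul, norm_mul, norm_e, norm_e, mul_one, one_mul, Complex.ofReal_mul,
        norm_mul]
      have h2 := hchn (τ / Lam)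
      have h3 := hZn (q.1 : EE n) (q.2 : EE n) (norm_sp q.1) (norm_sp q.2)
      have h4 := hawn (q.1 : EE n)
      calc _ ≤ 1 * (B * 1) := by gcongr
        _ = B := by ring
    rw [f1, f2, f3, hb, hσ]
    refine norm_integral_le_of_norm_le_const (ae_of_all _ fun v => ?_)
    simp only [G']
    rw [integral_const_mul, norm_mul, norm_mul, norm_e, mul_one]
    have hR1 : 1 ≤ τ * ‖x‖ := by nlinarith
    have hu1 : ‖‖x‖⁻¹ • x‖ = 1 := by
      rw [norm_smul, norm_inv, norm_norm, inv_mul_cancel₀ hx0.ne']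
    have hjt := hCJ L φ (τ * ‖x‖) (‖x‖⁻¹ • x) (v : EE n) w hL hφ hφ' hR1 hu1 (norm_sp v) hw hxw
    have hR2 : Lam * ‖x‖ / 4 ≤ τ * ‖x‖ := by nlinarith
    have hnum := numer N (Lam := Lam) hX0 hφ hL hR2 rfl
    rw [← hZ] at hnum
    have hJb := hjt.trans (mul_le_mul_of_nonneg_left hnum (by positivity))
    have h2 := hchn (τ / Lam)
    calc _ ≤ 1 * (CJ * L ^ (n - 1) * (4 ^ N * Z)) :=
          mul_le_mul h2 hJb (norm_nonneg _) zero_le_one
      _ = CJ * L ^ (n - 1) * (4 ^ N * Z) := one_mul _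
  have hfin := norm_integral_le_of_norm_le (nu_int hn1 h5L b hb0).1 (ae_of_all _ key)
  refine hfin.trans ((nu_int hn1 h5L b hb0).2.trans (le_of_eq ?_))
  rw [hb, mul_pow]
  ring

end Pool.Agent.H18.TN.BKN
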