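import Pool.Agent.H93.TN.TargetsA
import Pool.Agent.H89.BR.BU
import Pool.Agent.H31.BR.KS

/-!
# Module JN of the board tn_modules (MP_ee74d2_an): non-stationary phase on the sphere
(same scheme as `Pool/Agent/H89/BR/BU.lean` and `Pool/Agent/H31/BR/KS.lean`, the variable `s` is
fixed)
-/

set_option autoImplicit false

namespace Pool.Agent.H18.TN.JN

open MeasureTheory Set FourierTransform
open Pool.Agent.H83.LS Pool.Agent.H54.LS Pool.Agent.H93.AR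
open Pool.Agent.H89.BR Pool.Agent.H31.BR
open scoped ENNReal NNReal

/-- parameters `ε`, `R ε²`, `s`, `u` -/
abbrev PB (m : ℕ) : Type := ℝ × ℝ × ℝ × EE (m + 1)

noncomputable def PsB {m : ℕ} (q : PB m × EE m) : ℂ :=
  e (-(q.1.2.1 * Ev q.1.1 q.1.2.2.2 q.2)) *
    ((eta0 (8 * ‖Wv q.1.1 q.2‖) * (Sv q.1.1 q.2 ^ (m + 1))⁻¹ : ℝ) : ℂ)

noncomputable def PhB {m : ℕ} (q : PB m × EE m) : ℝ × EE (m + 1) :=
  (q.1.2.2.1, (1 / 2 : ℝ) • Wv q.1.1 q.2)

theorem cdS {m : ℕ} : ContDiff ℝ (⊤ : ℕ∞) fun q : PB m × EE m => Sv q.1.1 q.2 := by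
  unfold Sv
  apply ContDiff.sqrt
  · exact contDiff_const.add ((contDiff_fst.fst.pow 2).mul (contDiff_snd.norm_sq ℝ))
  · intro q
    have : 0 ≤ q.1.1 ^ 2 * ‖q.2‖ ^ 2 := by positivity
    positivity

theorem cdq {m : ℕ} : ContDiff ℝ (⊤ : ℕ∞) fun q : PB m × EE m => qv q.1.1 q.2 := by
  unfold qv
  apply ContDiff.inv
  · exact cdS.mul (cdS.add contDiff_const)
  · intro q
    have := Sv_pos q.1.1 q.2
    positivity

theorem cdW {m : ℕ} : ContDiff ℝ (⊤ : ℕ∞) fun q : PB m × EE m => Wv q.1.1 q.2 := by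
  unfold Wv
  apply cd_jo
  · exact (cdS.inv fun q => by have := Sv_pos q.1.1 q.2; positivity).smul contDiff_snd
  · exact ((contDiff_fst.fst.mul (contDiff_snd.norm_sq ℝ)).mul cdq).neg

theorem cdE {m : ℕ} :
    ContDiff ℝ (⊤ : ℕ∞) fun q : PB m × EE m => Ev q.1.1 q.1.2.2.2 q.2 := by
  unfold Ev
  apply ContDiff.mul
  · exact (contDiff_snd.norm_sq ℝ).mul cdq
  · apply ContDiff.add
    · exact cd_last.comp contDiff_fst.snd.snd.snd
    · exact contDiff_fst.fst.mul ((cd_pr.comp contDiff_fst.snd.snd.snd).inner ℝ contDiff_snd)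

theorem cdPsB {m : ℕ} : ContDiff ℝ (⊤ : ℕ∞) (PsB : PB m × EE m → ℂ) := by
  unfold PsB
  apply ContDiff.mul
  · exact cd_e.comp (contDiff_fst.snd.fst.mul cdE).neg
  · apply Complex.ofRealCLM.contDiff.comp
    apply ContDiff.mul
    · exact cd_etan.comp cdW
    · exact (cdS.pow _).inv fun q => by have := Sv_pos q.1.1 q.2; positivity

theorem cdPhB {m : ℕ} : ContDiff ℝ (⊤ : ℕ∞) (PhB : PB m × EE m → ℝ × EE (m + 1)) := by
  unfold PhB
  apply ContDiff.prodMk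
  · exact contDiff_fst.snd.snd.fst
  · exact cdW.const_smul _

/-- the amplitude in the new coordinates -/
noncomputable def PsU {m : ℕ} (g : ℝ × EE (m + 1) → ℂ) (δ : ℝ) (ζ : EE (m + 1))
    (Q : EE (m + 1) ≃ₗᵢ[ℝ] EE (m + 1)) (p : PB m) (y : EE m) : ℂ :=
  PsB (p, y) * Gf g δ ζ (Lq Q (PhB (p, y)))

theorem cdPsU {m : ℕ} (g : ℝ × EE (m + 1) → ℂ) (hg : ContDiff ℝ (⊤ : ℕ∞) g) (δ : ℝ)
    (ζ : EE (m + 1)) (Q : EE (m + 1) ≃ₗᵢ[ℝ] EE (m + 1)) (p : PB m) :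
    ContDiff ℝ (⊤ : ℕ∞) (PsU g δ ζ Q p) := by
  unfold PsU Gf
  have h1 : ContDiff ℝ (⊤ : ℕ∞) fun y : EE m => (p, y) := contDiff_const.prodMk contDiff_id
  apply ContDiff.mul
  · exact cdPsB.comp h1
  · have h2 : ContDiff ℝ (⊤ : ℕ∞) fun y : EE m => Lq Q (PhB (p, y)) :=
      (Lq Q).contDiff.comp (cdPhB.comp h1)
    exact hg.comp (h2.fst.prodMk (contDiff_const.add (h2.snd.const_smul δ)))

theorem PsU_supp {m : ℕ} (g : ℝ × EE (m + 1) → ℂ) (δ : ℝ) (ζ : EE (m + 1))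
    (Q : EE (m + 1) ≃ₗᵢ[ℝ] EE (m + 1)) (p : PB m) (hp0 : 0 ≤ p.1) (hp1 : p.1 ≤ 1) (y : EE m)
    (hy : PsU g δ ζ Q p y ≠ 0) : ‖y‖ ≤ 1 ∧ ‖Wv p.1 y‖ ≤ 1 / 4 := by
  unfold PsU at hy
  have h1 := left_ne_zero_of_mul hy
  have h4 : ‖Wv p.1 y‖ ≤ 1 / 4 := by
    by_contra hcon
    push Not at hcon
    apply h1
    unfold PsB
    simp only
    rw [eta0_zero (by linarith)]
    simp
  exact ⟨norm_y_le p.1 y hp0 hp1 h4, h4⟩

/-- the phase -/
theorem phase {m : ℕ} (R ε : ℝ) (v : EE (m + 1)) (y : EE m) :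
    R * inner ℝ v ((Real.sqrt (1 + ‖ε • y‖ ^ 2))⁻¹ • jo (ε • y) 1) =
      R * v (Fin.last m) + (inner ℝ ((R * ε) • pr v) y + -(R * ε ^ 2 * Ev ε v y)) := by
  have h1 : Real.sqrt (1 + ‖ε • y‖ ^ 2) = Sv ε y := by
    unfold Sv
    rw [norm_smul, mul_pow, Real.norm_eq_abs, sq_abs]
  rw [h1, jo_smul, inner_eq v, pr_jo, jo_last, mul_one]
  simp only [inner_smul_right, inner_smul_left]
  simp only [conj_trivial]
  rw [one_sub_inv]
  unfold Ev
  ring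

theorem e_add (a b : ℝ) : e (a + b) = e a * e b := by
  unfold e
  rw [← Complex.exp_add]
  congr 1
  push_cast
  ring

theorem int_eq {m : ℕ} (hSI : T_SI) (hGN : T_GN) (g : ℝ × EE (m + 1) → ℂ)
    (hgc : Continuous g) (δ R R' ε s : ℝ) (u ζ : EE (m + 1)) (Q : EE (m + 1) ≃ₗᵢ[ℝ] EE (m + 1))
    (hε0 : 0 < ε) (hε1 : ε ≤ 1) (hR' : Real.sqrt R' = ε⁻¹) (hδ : δ = 2 * ε)
    (hQ : Q (jo 0 1) = ζ) :
    ∫ w : Sp (m + 1), e (R * inner ℝ u (w : EE (m + 1))) *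
      (g (s, (w : EE (m + 1))) *
        ((eta0 (8 * (Real.sqrt R' * ‖(w : EE (m + 1)) - ζ‖)) : ℝ) : ℂ)) ∂(sg (m + 1)) =
    ((ε ^ m : ℝ) : ℂ) * (e (R * (Q.symm u) (Fin.last m)) *
      MK (PsU g δ ζ Q (ε, R * ε ^ 2, s, Q.symm u)) ((R * ε) • pr (Q.symm u))) := by
  have hεR : Real.sqrt R' * ε = 1 := by rw [hR', inv_mul_cancel₀ hε0.ne']
  have hR1 : 1 ≤ Real.sqrt R' := by
    rw [hR']
    exact (one_le_inv₀ hε0).2 hε1
  set h : EE (m + 1) → ℂ := fun x => e (R * inner ℝ u x) *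
    (g (s, x) * ((eta0 (8 * (Real.sqrt R' * ‖x - ζ‖)) : ℝ) : ℂ)) with hh
  have hcont : Continuous h := by
    have h1 : Continuous e := cd_e.continuous
    have h2 : Continuous eta0 := cd_eta0.continuous
    rw [hh]
    fun_prop
  have hsupp : HasCompactSupport h := by
    apply HasCompactSupport.intro (isCompact_closedBall ζ 1)
    intro x hx
    rw [Metric.mem_closedBall, dist_eq_norm, not_le] at hx
    rw [hh]
    simp only
    rw [Pool.Agent.H89.BR.eta0_zero (by nlinarith)]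
    simp
  obtain ⟨A, hA⟩ := hcont.bounded_above_of_compact_support hsupp
  have e1 : ∫ w : Sp (m + 1), h (w : EE (m + 1)) ∂(sg (m + 1)) =
      ∫ w : Sp (m + 1), h (Q (w : EE (m + 1))) ∂(sg (m + 1)) :=
    ((hSI (m + 1) Q (by omega)).2 h hcont.measurable ⟨A, hA⟩).symm
  have e2 := hGN m (fun x => h (Q x)) (hcont.comp Q.continuous).measurable
    ⟨A, fun x => hA _⟩ (by
      intro x hx
      simp only [hh]
      have h1 : 1 ≤ ‖Q x - ζ‖ := by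
        rw [← hQ, ← map_sub, Q.norm_map]
        have h2 := norm_sq_eq (x - jo (0 : EE m) 1)
        rw [PiLp.sub_apply, jo_last] at h2
        have h3 : 1 ≤ (x (Fin.last m) - 1) ^ 2 := by nlinarith
        nlinarith [norm_nonneg (x - jo 0 1), sq_nonneg (hor (x - jo 0 1))]
      rw [Pool.Agent.H89.BR.eta0_zero (by nlinarith)]
      simp)
  rw [show (∫ w : Sp (m + 1), e (R * inner ℝ u (w : EE (m + 1))) *
      (g (s, (w : EE (m + 1))) *
        ((eta0 (8 * (Real.sqrt R' * ‖(w : EE (m + 1)) - ζ‖)) : ℝ) : ℂ)) ∂(sg (m + 1))) =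
      ∫ w : Sp (m + 1), h (w : EE (m + 1)) ∂(sg (m + 1)) from rfl, e1, e2]
  have e3 := Measure.integral_comp_smul (volume : Measure (EE m))
    (fun z : EE m => h (Q ((Real.sqrt (1 + ‖z‖ ^ 2))⁻¹ • jo z 1)) *
      (((Real.sqrt (1 + ‖z‖ ^ 2) ^ (m + 1))⁻¹ : ℝ) : ℂ)) ε
  rw [finrank_euclideanSpace_fin, abs_of_pos (by positivity)] at e3
  have e4 : ∫ z : EE m, h (Q ((Real.sqrt (1 + ‖z‖ ^ 2))⁻¹ • jo z 1)) *
      (((Real.sqrt (1 + ‖z‖ ^ 2) ^ (m + 1))⁻¹ : ℝ) : ℂ) =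
      (ε ^ m : ℝ) • ∫ y : EE m,
        h (Q ((Real.sqrt (1 + ‖ε • y‖ ^ 2))⁻¹ • jo (ε • y) 1)) *
      (((Real.sqrt (1 + ‖ε • y‖ ^ 2) ^ (m + 1))⁻¹ : ℝ) : ℂ) := by
    rw [e3, smul_smul, mul_inv_cancel₀ (by positivity), one_smul]
  rw [e4, Complex.real_smul]
  congr 1
  unfold MK
  rw [← integral_const_mul]
  refine integral_congr_ae (Filter.Eventually.of_forall fun y => ?_)
  simp only
  have hSS : Real.sqrt (1 + ‖ε • y‖ ^ 2) = Sv ε y := by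
    unfold Sv
    rw [norm_smul, mul_pow, Real.norm_eq_abs, sq_abs]
  have hw := w_eq ε y
  have hph := phase R ε (Q.symm u) y
  have hinner : inner ℝ u (Q ((Real.sqrt (1 + ‖ε • y‖ ^ 2))⁻¹ • jo (ε • y) 1)) =
      inner ℝ (Q.symm u) ((Real.sqrt (1 + ‖ε • y‖ ^ 2))⁻¹ • jo (ε • y) 1) := by
    conv_lhs => rw [← Q.apply_symm_apply u]
    exact Q.inner_map_map _ _
  have hQw : Q ((Real.sqrt (1 + ‖ε • y‖ ^ 2))⁻¹ • jo (ε • y) 1) = ζ + ε • Q (Wv ε y) := by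
    rw [hw, map_add, hQ, map_smul]
  simp only [hh]
  rw [hinner, hph, hQw]
  unfold PsU PsB Gf PhB
  simp only [Lq_apply]
  have hnorm : ‖ζ + ε • Q (Wv ε y) - ζ‖ = ε * ‖Wv ε y‖ := by
    rw [add_sub_cancel_left, norm_smul, Q.norm_map, Real.norm_of_nonneg hε0.le]
  have hδε : δ • Q ((1 / 2 : ℝ) • Wv ε y) = ε • Q (Wv ε y) := by
    rw [map_smul, smul_smul, hδ]
    congr 1
    ring
  rw [hnorm, ← mul_assoc (Real.sqrt R'), hεR, one_mul, hδε, hSS, e_add, e_add]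
  push_cast
  ring

/-- the compact set of the parameters and points -/
def KB (m : ℕ) : Set (PB m × EE m) :=
  (Icc 0 1 ×ˢ (Icc 0 1 ×ˢ (Icc 0 8 ×ˢ Metric.closedBall 0 1))) ×ˢ Metric.closedBall 0 1

theorem isCompact_KB (m : ℕ) : IsCompact (KB m) :=
  (isCompact_Icc.prod (isCompact_Icc.prod (isCompact_Icc.prod (isCompact_closedBall _ _)))).prod
    (isCompact_closedBall _ _)

theorem bounds {m : ℕ} (hCP : T_CP) (M : ℕ) : ∃ C : ℝ, 1 ≤ C ∧ ∀ k ≤ M, ∀ q ∈ KB m,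
    ‖iteratedFDeriv ℝ k (fun x => (PsB : PB m × EE m → ℂ) (q.1, x)) q.2‖ ≤ C ∧
    ‖iteratedFDeriv ℝ k (fun x => (PhB : PB m × EE m → ℝ × EE (m + 1)) (q.1, x)) q.2‖ ≤
      C := by
  choose c hc using fun k : ℕ => hCP (PB m) (EE m) ℂ k PsB univ (KB m) isOpen_univ
    cdPsB.contDiffOn (isCompact_KB m) (subset_univ _)
  choose d hd using fun k : ℕ => hCP (PB m) (EE m) (ℝ × EE (m + 1)) k PhB univ (KB m)
    isOpen_univ cdPhB.contDiffOn (isCompact_KB m) (subset_univ _)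
  refine ⟨1 + ∑ k ∈ Finset.range (M + 1), (|c k| + |d k|), ?_, ?_⟩
  · have : 0 ≤ ∑ k ∈ Finset.range (M + 1), (|c k| + |d k|) :=
      Finset.sum_nonneg fun _ _ => by positivity
    linarith
  · intro k hk q hq
    have h1 : |c k| + |d k| ≤ ∑ k ∈ Finset.range (M + 1), (|c k| + |d k|) :=
      Finset.single_le_sum (f := fun k => |c k| + |d k|) (fun _ _ => by positivity)
        (Finset.mem_range.2 (by omega))
    constructor
    · refine (hc k q hq).trans ?_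
      have := le_abs_self (c k)
      have := abs_nonneg (d k)
      linarith
    · refine (hd k q hq).trans ?_
      have := le_abs_self (d k)
      have := abs_nonneg (c k)
      linarith

theorem deriv_bd {m : ℕ} (M : ℕ) (C B : ℝ) (hC1 : 1 ≤ C)
    (hC : ∀ k ≤ M, ∀ q ∈ KB m,
      ‖iteratedFDeriv ℝ k (fun x => (PsB : PB m × EE m → ℂ) (q.1, x)) q.2‖ ≤ C ∧
      ‖iteratedFDeriv ℝ k (fun x => (PhB : PB m × EE m → ℝ × EE (m + 1)) (q.1, x)) q.2‖ ≤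
        C)
    (g : ℝ × EE (m + 1) → ℂ) (δ : ℝ) (hg : SA (m + 1) M δ B g) (ζ : EE (m + 1))
    (hζ : ‖ζ‖ = 1) (Q : EE (m + 1) ≃ₗᵢ[ℝ] EE (m + 1)) (p : PB m)
    (hp : p ∈ (Icc 0 1 ×ˢ (Icc 0 1 ×ˢ (Icc 0 8 ×ˢ Metric.closedBall 0 1)) : Set (PB m)))
    (k : ℕ) (hk : k ≤ M) (x : EE m) :
    ‖iteratedFDeriv ℝ k (PsU g δ ζ Q p) x‖ ≤ 2 ^ M * (C * (M.factorial * B * C ^ M)) := by
  obtain ⟨hg1, hg2, hg3⟩ := hg
  have hB : 0 ≤ B := (norm_nonneg _).trans (hg3 ζ hζ 0 (by omega) 0 (by simp))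
  by_cases hx : x ∈ tsupport (PsU g δ ζ Q p)
  swap
  · have h1 : x ∉ tsupport (iteratedFDeriv ℝ k (PsU g δ ζ Q p)) := fun h =>
      hx (tsupport_iteratedFDeriv_subset k h)
    rw [image_eq_zero_of_notMem_tsupport h1, norm_zero]
    positivity
  -- the point `x` is in the closed set where everything is bounded
  have hcl : tsupport (PsU g δ ζ Q p) ⊆ {x | ‖x‖ ≤ 1 ∧ ‖Wv p.1 x‖ ≤ 1 / 4} := by
    apply closure_minimal
    · intro z hz
      exact PsU_supp g δ ζ Q p hp.1.1 hp.1.2 z hz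
    · have hW : Continuous fun x : EE m => Wv p.1 x :=
        (cdW (m := m)).continuous.comp (continuous_const.prodMk continuous_id : Continuous
          fun x : EE m => (p, x))
      exact (isClosed_le continuous_norm continuous_const).inter
        (isClosed_le hW.norm continuous_const)
  obtain ⟨hx1, hx2⟩ := hcl hx
  have hq : ((p, x) : PB m × EE m) ∈ KB m := by
    refine ⟨hp, ?_⟩
    rw [Metric.mem_closedBall, dist_zero_right]
    exact hx1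
  have h1 : ContDiff ℝ (⊤ : ℕ∞) fun x : EE m => (p, x) := contDiff_const.prodMk contDiff_id
  have hA : ContDiff ℝ (⊤ : ℕ∞) fun x : EE m => PsB (p, x) := cdPsB.comp h1
  have hPh : ContDiff ℝ (⊤ : ℕ∞) fun x : EE m => PhB (p, x) := cdPhB.comp h1
  have hLP : ContDiff ℝ (⊤ : ℕ∞) fun x : EE m => Lq Q (PhB (p, x)) :=
    (Lq Q).contDiff.comp hPh
  have hG : ContDiff ℝ (⊤ : ℕ∞) (Gf g δ ζ) := by
    unfold Gf
    exact hg1.comp (contDiff_fst.prodMk (contDiff_const.add (contDiff_snd.const_smul δ)))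
  have hGL : ContDiff ℝ (⊤ : ℕ∞) fun x : EE m => Gf g δ ζ (Lq Q (PhB (p, x))) :=
    hG.comp hLP
  -- composition
  have hcomp : ∀ j ≤ M, ‖iteratedFDeriv ℝ j
      (fun x : EE m => Gf g δ ζ (Lq Q (PhB (p, x)))) x‖ ≤ M.factorial * B * C ^ M := by
    intro j hj
    have h2 := norm_iteratedFDeriv_comp_le (𝕜 := ℝ) (g := Gf g δ ζ)
      (f := fun x : EE m => Lq Q (PhB (p, x))) (n := j) (N := ((⊤ : ℕ∞) : WithTop ℕ∞))
      hG hLP (by exact_mod_cast le_top) x (C := B) (D := C)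
      (by
        intro i hi
        apply hg3 ζ hζ i (hi.trans hj)
        show ‖Q ((1 / 2 : ℝ) • Wv p.1 x)‖ ≤ 1 / 4
        rw [Q.norm_map, norm_smul, Real.norm_of_nonneg (by norm_num)]
        nlinarith [norm_nonneg (Wv p.1 x)])
      (by
        intro i hi1 hi2
        have h3 := (Lq Q).norm_iteratedFDeriv_comp_left (f := fun x : EE m => PhB (p, x))
          (x := x) (hPh.contDiffAt) (i := i) (by exact_mod_cast le_top)
        have h4 : ‖iteratedFDeriv ℝ i (fun x : EE m => Lq Q (PhB (p, x))) x‖ =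
          ‖iteratedFDeriv ℝ i (fun x : EE m => PhB (p, x)) x‖ := h3
        rw [h4]
        refine ((hC i (hi2.trans hj) (p, x) hq).2).trans ?_
        calc C = C ^ 1 := (pow_one C).symm
          _ ≤ C ^ i := pow_le_pow_right₀ hC1 hi1)
    refine h2.trans ?_
    have h5 : (j.factorial : ℝ) ≤ M.factorial := by exact_mod_cast Nat.factorial_le hj
    have h6 : C ^ j ≤ C ^ M := pow_le_pow_right₀ hC1 hj
    gcongr
  have hmul := norm_iteratedFDeriv_mul_le (𝕜 := ℝ) (N := ((⊤ : ℕ∞) : WithTop ℕ∞)) hA hGL x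
    (n := k) (by exact_mod_cast le_top)
  refine hmul.trans ?_
  calc ∑ i ∈ Finset.range (k + 1), (k.choose i : ℝ) *
        ‖iteratedFDeriv ℝ i (fun x : EE m => PsB (p, x)) x‖ *
        ‖iteratedFDeriv ℝ (k - i) (fun x : EE m => Gf g δ ζ (Lq Q (PhB (p, x)))) x‖
      ≤ ∑ i ∈ Finset.range (k + 1), (k.choose i : ℝ) * C * (M.factorial * B * C ^ M) := by
        apply Finset.sum_le_sum
        intro i hi
        rw [Finset.mem_range] at hi
        have h7 := (hC i (by omega) (p, x) hq).1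
        have h8 := hcomp (k - i) (by omega)
        simp only at h7
        gcongr
    _ = 2 ^ k * (C * (M.factorial * B * C ^ M)) := by
        have h9 : ∑ i ∈ Finset.range (k + 1), (k.choose i : ℝ) = 2 ^ k := by
          exact_mod_cast Nat.sum_range_choose k
        rw [← h9, Finset.sum_mul]
        exact Finset.sum_congr rfl fun i _ => by ring
    _ ≤ 2 ^ M * (C * (M.factorial * B * C ^ M)) := by
        have h10 : (2 : ℝ) ^ k ≤ 2 ^ M := pow_le_pow_right₀ (by norm_num) hk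
        gcongr

/-- superposition of bumps -/
theorem avg (hSI : T_SI) {n M : ℕ} (hn : 1 ≤ n) {δ B : ℝ} {g : ℝ × EE n → ℂ}
    (hg : SA n M δ B g) (R R' s : ℝ) (u : EE n) (hu : ‖u‖ = 1) :
    ((mR n R' u : ℝ) : ℂ) * ∫ w : Sp n, e (R * inner ℝ u (w : EE n)) * g (s, (w : EE n)) ∂(sg n) =
      ∫ ζ : Sp n, ∫ w : Sp n, e (R * inner ℝ u (w : EE n)) * (g (s, (w : EE n)) *
        ((eta0 (8 * (Real.sqrt R' * ‖(w : EE n) - (ζ : EE n)‖)) : ℝ) : ℂ)) ∂(sg n) ∂(sg n) := by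
  have hgc : Continuous g := hg.1.continuous
  let G : Sp n → Sp n → ℂ := fun w ζ => e (R * inner ℝ u (w : EE n)) *
    (g (s, (w : EE n)) * ((eta0 (8 * (Real.sqrt R' * ‖(w : EE n) - (ζ : EE n)‖)) : ℝ) : ℂ))
  have hGb : ∀ w ζ, ‖G w ζ‖ ≤ B := by
    intro w ζ
    have h1 := sa_bound hg s (w : EE n) (norm_sp w)
    simp only [G]
    rw [norm_mul, norm_e, one_mul, norm_mul, Complex.norm_real,
      Real.norm_of_nonneg (eta_nonneg _)]
    calc _ ≤ ‖g (s, (w : EE n))‖ * 1 :=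
          mul_le_mul_of_nonneg_left (eta_le_one _) (norm_nonneg _)
      _ ≤ B := by rw [mul_one]; exact h1
  have hRr : ∫ ζ : Sp n, ∫ w : Sp n, e (R * inner ℝ u (w : EE n)) * (g (s, (w : EE n)) *
        ((eta0 (8 * (Real.sqrt R' * ‖(w : EE n) - (ζ : EE n)‖)) : ℝ) : ℂ)) ∂(sg n) ∂(sg n) =
      ∫ ζ : Sp n, ∫ w : Sp n, G w ζ ∂(sg n) ∂(sg n) := rfl
  rw [hRr, integral_integral_swap, ← integral_const_mul]
  · refine integral_congr_ae (ae_of_all _ fun w => ?_)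
    simp only [G]
    rw [integral_const_mul, integral_const_mul]
    have h3 := integral_ofReal (𝕜 := ℂ) (μ := sg n)
      (f := fun ζ : Sp n => eta0 (8 * (Real.sqrt R' * ‖(w : EE n) - (ζ : EE n)‖)))
    have h4 := mR_const hSI hn R' u (w : EE n) hu (norm_sp w)
    have h5 : ∫ ζ : Sp n,
        ((eta0 (8 * (Real.sqrt R' * ‖(w : EE n) - (ζ : EE n)‖)) : ℝ) : ℂ) ∂(sg n) =
        ((mR n R' u : ℝ) : ℂ) := by
      rw [h4]
      exact h3
    rw [h5]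
    ring
  · have h1 : Continuous fun q : Sp n × Sp n => G q.2 q.1 := by
      have h2 : Continuous fun q : Sp n × Sp n => e (R * inner ℝ u (q.2 : EE n)) :=
        continuous_e.comp (by fun_prop)
      have h3 : Continuous fun q : Sp n × Sp n => g (s, (q.2 : EE n)) := hgc.comp (by fun_prop)
      have h4 : Continuous fun q : Sp n × Sp n =>
          ((eta0 (8 * (Real.sqrt R' * ‖(q.2 : EE n) - (q.1 : EE n)‖)) : ℝ) : ℂ) :=
        Complex.continuous_ofReal.comp (eta_cont.comp (by fun_prop))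
      exact h2.mul (h3.mul h4)
    refine Integrable.of_bound h1.aestronglyMeasurable B (ae_of_all _ fun q => ?_)
    exact hGb _ _

/-- the component of `u` orthogonal to a point near the support -/
theorem geo {n : ℕ} (u ζ w : EE n) (D δ : ℝ) (hu : ‖u‖ = 1) (hζ : ‖ζ‖ = 1) (hδ : 8 * δ ≤ D)
    (hD0 : 0 ≤ D) (h1 : D ≤ ‖w - u‖) (h2 : D ≤ ‖w + u‖) (hw : ‖w - ζ‖ ≤ δ / 8) :
    D / 4 ≤ ‖u - (inner ℝ u ζ) • ζ‖ := by
  set c : ℝ := inner ℝ u ζ with hcdef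
  have hs2 : ‖u - c • ζ‖ ^ 2 = 1 - c ^ 2 := by
    rw [@norm_sub_sq_real, inner_smul_right, norm_smul, hu, hζ, ← hcdef, mul_one,
      Real.norm_eq_abs, sq_abs]
    ring
  have hd1 : ‖ζ - u‖ ^ 2 = 2 - 2 * c := by
    rw [@norm_sub_sq_real, hu, hζ, real_inner_comm, ← hcdef]
    ring
  have hd2 : ‖ζ + u‖ ^ 2 = 2 + 2 * c := by
    rw [@norm_add_sq_real, hu, hζ, real_inner_comm, ← hcdef]
    ring
  have a1 : D / 2 ≤ ‖ζ - u‖ := by
    have h3 : ‖w - u‖ ≤ ‖w - ζ‖ + ‖ζ - u‖ := norm_sub_le_norm_sub_add_norm_sub w ζ u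
    linarith
  have a2 : D / 2 ≤ ‖ζ + u‖ := by
    have h3 : ‖w + u‖ ≤ ‖w - ζ‖ + ‖ζ + u‖ := by
      have h4 : w + u = (w - ζ) + (ζ + u) := by abel
      rw [h4]
      exact norm_add_le _ _
    linarith
  have b1 : (D / 2) ^ 2 ≤ 2 - 2 * c := by
    rw [← hd1]
    exact pow_le_pow_left₀ (by linarith) a1 2
  have b2 : (D / 2) ^ 2 ≤ 2 + 2 * c := by
    rw [← hd2]
    exact pow_le_pow_left₀ (by linarith) a2 2
  have b3 : (D / 4) ^ 2 ≤ ‖u - c • ζ‖ ^ 2 := by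
    rw [hs2]
    rcases le_total 0 c with hc | hc <;> nlinarith
  exact (pow_le_pow_iff_left₀ (by linarith) (norm_nonneg _) two_ne_zero).1 b3

theorem pr_symm {m : ℕ} (u ζ : EE (m + 1)) (Q : EE (m + 1) ≃ₗᵢ[ℝ] EE (m + 1))
    (hQ : Q (jo 0 1) = ζ) : ‖pr (Q.symm u)‖ = ‖u - (inner ℝ u ζ) • ζ‖ := by
  set v : EE (m + 1) := Q.symm u with hv
  have hlast : v (Fin.last m) = inner ℝ u ζ := by
    have h1 : inner ℝ v (jo (0 : EE m) 1) = v (Fin.last m) := by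
      rw [inner_eq, pr_jo, jo_last, inner_zero_right]
      ring
    rw [← h1, hv, ← hQ]
    conv_rhs => rw [← Q.apply_symm_apply u]
    exact (Q.inner_map_map _ _).symm
  have h1 : u - (inner ℝ u ζ) • ζ = Q (v - (inner ℝ u ζ) • jo (0 : EE m) 1) := by
    rw [map_sub, map_smul, hQ, hv, Q.apply_symm_apply]
  rw [h1, Q.norm_map, ← hlast]
  have h2 : v - (v (Fin.last m)) • jo (0 : EE m) 1 = jo (pr v) 0 := by
    ext i
    refine Fin.lastCases ?_ (fun j => ?_) i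
    · simp [jo_last]
    · simp [jo_castSucc, pr]
  rw [h2]
  have h3 := jo_norm_sq (pr v) 0
  have h4 : ‖jo (pr v) 0‖ ^ 2 = ‖pr v‖ ^ 2 := by rw [h3]; ring
  exact ((sq_eq_sq₀ (norm_nonneg _) (norm_nonneg _)).1 h4).symm

theorem exists_rot {m : ℕ} (ζ : EE (m + 1)) (hζ : ‖ζ‖ = 1) :
    ∃ Q : EE (m + 1) ≃ₗᵢ[ℝ] EE (m + 1), Q (jo 0 1) = ζ := by
  have h1 : ‖(jo (0 : EE m) 1)‖ = ‖ζ‖ := by
    have h2 := jo_norm_sq (0 : EE m) 1
    rw [norm_zero] at h2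
    have h3 : ‖jo (0 : EE m) 1‖ ^ 2 = 1 ^ 2 := by rw [h2]; norm_num
    rw [hζ]
    exact (sq_eq_sq₀ (norm_nonneg _) (by norm_num)).1 h3
  exact ⟨_, Submodule.reflection_sub h1⟩

/-- JN -/
theorem pf_jn (hDK : T_DK) (hCP : T_CP) (hGN : T_GN) (hSI : T_SI) (hSBL : T_SBL) :
    Pool.Agent.H93.TN.T_JN := by
  intro n N hn
  obtain ⟨m, rfl⟩ : ∃ m, n = m + 1 := ⟨n - 1, by omega⟩
  obtain ⟨M, CD, hCD⟩ := hDK m N 1
  obtain ⟨C, hC1, hC⟩ := bounds (m := m) hCP M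
  obtain ⟨C₂, hC₂0, hC₂⟩ := hSBL (m + 1) (by omega)
  obtain ⟨A, hA⟩ : ∃ A : ℝ, A = |CD| * (2 ^ M * (C * (M.factorial * C ^ M))) := ⟨_, rfl⟩
  have hA0 : 0 ≤ A := by rw [hA]; positivity
  obtain ⟨σ, hσ⟩ : ∃ σ : ℝ, σ = (sg (m + 1)).real univ := ⟨_, rfl⟩
  have hσ0 : 0 ≤ σ := by rw [hσ]; positivity
  refine ⟨M, C₂ * σ * A * 8 ^ N, by positivity, ?_⟩
  intro g δ B R D s u hg hδ hδD hRδ hR hu hsupp
  have hB : 0 ≤ B := (norm_nonneg _).trans (sa_bound hg 1 u hu)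
  have hD0 : 0 ≤ D := by linarith
  have hRDδ : 0 ≤ R * D * δ := by positivity
  by_cases hz : ∀ w : Sp (m + 1), g (s, (w : EE (m + 1))) = 0
  · simp only [hz, mul_zero, integral_zero, norm_zero]
    positivity
  push Not at hz
  obtain ⟨w₀, hw₀⟩ := hz
  have hs := hg.2.1 _ hw₀
  simp only at hs
  obtain ⟨hd1, hd2⟩ := hsupp s (w₀ : EE (m + 1)) (norm_sp w₀) hw₀
  have hD2 : D ≤ 2 := by
    refine hd1.trans ((norm_sub_le _ _).trans ?_)
    rw [norm_sp w₀, hu]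
    norm_num
  have hδ4 : δ ≤ 1 / 4 := by linarith
  obtain ⟨ε, hε⟩ : ∃ ε : ℝ, ε = δ / 2 := ⟨_, rfl⟩
  have hε0 : 0 < ε := by rw [hε]; positivity
  have hε1 : ε ≤ 1 := by rw [hε]; linarith
  obtain ⟨R', hR'⟩ : ∃ R' : ℝ, R' = (ε⁻¹) ^ 2 := ⟨_, rfl⟩
  have hsR : Real.sqrt R' = ε⁻¹ := by rw [hR', Real.sqrt_sq (by positivity)]
  have hεi : 1 ≤ ε⁻¹ := (one_le_inv₀ hε0).2 hε1
  have hR'1 : 1 ≤ R' := by rw [hR']; exact one_le_pow₀ hεi
  obtain ⟨Z, hZ⟩ : ∃ Z : ℝ, Z = ((1 + R * D * δ) ^ N)⁻¹ := ⟨_, rfl⟩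
  have hZ0 : 0 ≤ Z := by rw [hZ]; positivity
  -- one bump
  have hI : ∀ ζ : Sp (m + 1), ‖∫ w : Sp (m + 1), e (R * inner ℝ u (w : EE (m + 1))) *
      (g (s, (w : EE (m + 1))) *
        ((eta0 (8 * (Real.sqrt R' * ‖(w : EE (m + 1)) - (ζ : EE (m + 1))‖)) : ℝ) : ℂ))
          ∂(sg (m + 1))‖ ≤ ε ^ m * (A * B * (8 ^ N * Z)) := by
    intro ζ
    have hζ := norm_sp ζ
    by_cases hz : ∀ w : Sp (m + 1), g (s, (w : EE (m + 1))) *
        ((eta0 (8 * (Real.sqrt R' * ‖(w : EE (m + 1)) - (ζ : EE (m + 1))‖)) : ℝ) : ℂ) = 0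
    · simp only [hz, mul_zero, integral_zero, norm_zero]
      positivity
    push Not at hz
    obtain ⟨w, hw⟩ := hz
    have hw1 : g (s, (w : EE (m + 1))) ≠ 0 := left_ne_zero_of_mul hw
    have hw2 : ((eta0 (8 * (Real.sqrt R' * ‖(w : EE (m + 1)) - (ζ : EE (m + 1))‖)) : ℝ) : ℂ) ≠ 0 :=
      right_ne_zero_of_mul hw
    have hw3 : ‖(w : EE (m + 1)) - (ζ : EE (m + 1))‖ ≤ δ / 8 := by
      by_contra h
      push Not at h
      apply hw2
      rw [eta_zero]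
      · simp
      · rw [hsR, hε]
        have h5 : (δ / 2)⁻¹ * (δ / 8) ≤
            (δ / 2)⁻¹ * ‖(w : EE (m + 1)) - (ζ : EE (m + 1))‖ :=
          mul_le_mul_of_nonneg_left h.le (by positivity)
        have h6 : (δ / 2)⁻¹ * (δ / 8) = 1 / 4 := by field_simp; norm_num
        linarith
    obtain ⟨h1, h2⟩ := hsupp s (w : EE (m + 1)) (norm_sp w) hw1
    have hgeo := geo u (ζ : EE (m + 1)) (w : EE (m + 1)) D δ hu hζ hδD hD0 h1 h2 hw3
    obtain ⟨Q, hQ⟩ := exists_rot (ζ : EE (m + 1)) hζ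
    rw [int_eq hSI hGN g hg.1.continuous δ R R' ε s u (ζ : EE (m + 1)) Q hε0 hε1 hsR
      (by rw [hε]; ring) hQ]
    rw [norm_mul, norm_mul, norm_e, one_mul, Complex.norm_real,
      Real.norm_of_nonneg (by positivity)]
    apply mul_le_mul_of_nonneg_left _ (by positivity)
    have hvn : ‖Q.symm u‖ = 1 := by rw [LinearIsometryEquiv.norm_map, hu]
    have hRε0 : 0 ≤ R * ε ^ 2 := by positivity
    have hRε1 : R * ε ^ 2 ≤ 1 := by
      rw [hε]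
      nlinarith
    have hp : ((ε, R * ε ^ 2, s, Q.symm u) : PB m) ∈
        (Icc 0 1 ×ˢ (Icc 0 1 ×ˢ (Icc 0 8 ×ˢ Metric.closedBall 0 1)) : Set (PB m)) := by
      refine ⟨⟨hε0.le, hε1⟩, ⟨hRε0, hRε1⟩, ⟨?_, hs.2⟩, ?_⟩
      · linarith [hs.1]
      · rw [Metric.mem_closedBall, dist_zero_right]
        exact hvn.le
    have hsup : ∀ y : EE m, 1 < ‖y‖ →
        PsU g δ (ζ : EE (m + 1)) Q (ε, R * ε ^ 2, s, Q.symm u) y = 0 := by
      intro y hy
      by_contra hcon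
      have := (PsU_supp g δ (ζ : EE (m + 1)) Q _ hε0.le hε1 y hcon).1
      linarith
    have hdk := hCD (2 ^ M * (C * (M.factorial * B * C ^ M)))
      (PsU g δ (ζ : EE (m + 1)) Q (ε, R * ε ^ 2, s, Q.symm u)) (cdPsU g hg.1 δ _ Q _) hsup
      (fun k hk x => deriv_bd M C B hC1 hC g δ hg _ hζ Q _ hp k hk x)
      ((R * ε) • pr (Q.symm u))
    have hV : ‖(R * ε) • pr (Q.symm u)‖ = R * ε * ‖u - (inner ℝ u (ζ : EE (m + 1))) •
        (ζ : EE (m + 1))‖ := by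
      rw [norm_smul, Real.norm_of_nonneg (by positivity), pr_symm u _ Q hQ]
    obtain ⟨V, hVdef⟩ : ∃ V : ℝ, V = ‖(R * ε) • pr (Q.symm u)‖ := ⟨_, rfl⟩
    have hV0 : 0 ≤ V := by rw [hVdef]; positivity
    have hVD : R * D * δ / 8 ≤ V := by
      rw [hVdef, hV, hε]
      have h5 : R * (δ / 2) * (D / 4) ≤ R * (δ / 2) *
          ‖u - (inner ℝ u (ζ : EE (m + 1))) • (ζ : EE (m + 1))‖ :=
        mul_le_mul_of_nonneg_left hgeo (by positivity)
      linarith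
    rw [← hVdef] at hdk
    obtain ⟨K, hK⟩ : ∃ K : ℝ, K = ‖MK (PsU g δ (ζ : EE (m + 1)) Q
      (ε, R * ε ^ 2, s, Q.symm u)) ((R * ε) • pr (Q.symm u))‖ := ⟨_, rfl⟩
    rw [← hK] at hdk ⊢
    have hK0 : 0 ≤ K := by rw [hK]; positivity
    have h3 : K * (1 + V) ^ N ≤ A * B := by
      refine hdk.trans ?_
      have h4 := le_abs_self CD
      have h5 : 0 ≤ 2 ^ M * (C * (M.factorial * B * C ^ M)) := by positivity
      calc CD * (2 ^ M * (C * (M.factorial * B * C ^ M)))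
          ≤ |CD| * (2 ^ M * (C * (M.factorial * B * C ^ M))) := by gcongr
        _ = A * B := by rw [hA]; ring
    have h4 : (1 + R * D * δ) ^ N ≤ 8 ^ N * (1 + V) ^ N := by
      rw [← mul_pow]
      apply pow_le_pow_left₀ (by positivity)
      linarith
    have h5 : K * (1 + R * D * δ) ^ N ≤ A * B * 8 ^ N := by
      calc K * (1 + R * D * δ) ^ N ≤ K * (8 ^ N * (1 + V) ^ N) := by gcongr
        _ = K * (1 + V) ^ N * 8 ^ N := by ring
        _ ≤ A * B * 8 ^ N := by gcongr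
    have h6 : K ≤ A * B * 8 ^ N * ((1 + R * D * δ) ^ N)⁻¹ := by
      rw [← div_eq_mul_inv, le_div_iff₀ (by positivity)]
      exact h5
    rw [hZ]
    linarith
  -- integrate
  have h1 := norm_integral_le_of_norm_le_const (μ := sg (m + 1))
    (ae_of_all _ hI)
  rw [← avg hSI (by omega) hg R R' s u hu, ← hσ] at h1
  have h3 : C₂⁻¹ * ε ^ m ≤ mR (m + 1) R' u := by
    refine le_trans ?_ (mR_lower hR'1 u)
    have h4 := (hC₂ (ε⁻¹) u hεi hu).2.1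
    have h5 : (ε⁻¹ ^ (m + 1 - 1))⁻¹ = ε ^ m := by
      rw [Nat.add_sub_cancel, inv_pow, inv_inv]
    rw [h5] at h4
    rw [hsR]
    unfold Measure.real
    rwa [← ENNReal.ofReal_le_iff_le_toReal (measure_ne_top _ _)]
  have hm0 : 0 < mR (m + 1) R' u := lt_of_lt_of_le (by positivity) h3
  rw [norm_mul, Complex.norm_real, Real.norm_of_nonneg hm0.le] at h1
  obtain ⟨I, hIdef⟩ : ∃ I : ℝ, I = ‖∫ w : Sp (m + 1), e (R * inner ℝ u (w : EE (m + 1))) *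
    g (s, (w : EE (m + 1))) ∂(sg (m + 1))‖ := ⟨_, rfl⟩
  rw [← hIdef] at h1 ⊢
  rw [← hZ]
  have hI0 : 0 ≤ I := by rw [hIdef]; positivity
  have h4 : C₂⁻¹ * ε ^ m * I ≤ ε ^ m * (A * B * (8 ^ N * Z)) * σ :=
    (mul_le_mul_of_nonneg_right h3 hI0).trans h1
  have h5 : C₂⁻¹ * ε ^ m * I ≤ C₂⁻¹ * ε ^ m * (C₂ * σ * A * 8 ^ N * B * Z) := by
    refine h4.trans (le_of_eq ?_)
    field_simp
  exact le_of_mul_le_mul_left h5 (by positivity)

end Pool.Agent.H18.TN.JN
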